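import Mathlib

namespace Pool.Agent.Results.MP_e96fbd_an.No

open Complex

/-- The character `χ_x(t) = e^{2πi x t / k}` of `ℤ_k`. -/
noncomputable def chi {k : ℕ} (x t : ZMod k) : ℂ :=
  exp (2 * Real.pi * I * (x.val : ℂ) * (t.val : ℂ) / k)

/-- The Sidon constant `S(E)`. -/
noncomputable def sidon {k : ℕ} (E : Finset (ZMod k)) : ℝ :=
  sSup {s | ∃ a : ZMod k → ℂ, (∀ t, ‖∑ x ∈ E, a x * chi x t‖ ≤ 1) ∧ s = ∑ x ∈ E, ‖a x‖}

/-- `E` is extreme: `S(E) = √|E|`. -/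
def Extreme {k : ℕ} (E : Finset (ZMod k)) : Prop := sidon E = √(E.card : ℝ)

/-- `F = u E + c` for a unit `u` and some `c`. -/
def Equivalent {k : ℕ} (E F : Finset (ZMod k)) : Prop :=
  ∃ (u : (ZMod k)ˣ) (c : ZMod k), F = E.image fun x => u * x + c

theorem rot (g b : ℂ) (h0 : ‖g + b‖ ≤ 1) (h1 : ‖g + b * I‖ ≤ 1) (h2 : ‖g - b‖ ≤ 1)
    (h3 : ‖g - b * I‖ ≤ 1) : √2 * ‖g‖ + ‖b‖ ≤ √2 := by
  have s := Real.sq_sqrt (show (0 : ℝ) ≤ 2 by norm_num)
  have s0 : 0 < √2 := by positivity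
  have q : ∀ z : ℂ, ‖z‖ ≤ 1 → z.re ^ 2 + z.im ^ 2 ≤ 1 := fun z hz => by
    have := Complex.sq_norm z
    rw [normSq_apply] at this
    nlinarith [norm_nonneg z]
  have a0 := q _ h0
  have a1 := q _ h1
  have a2 := q _ h2
  have a3 := q _ h3
  have G := Complex.sq_norm g
  have B := Complex.sq_norm b
  rw [normSq_apply] at G B
  simp at a0 a1 a2 a3
  have g0 := norm_nonneg g
  have b0 := norm_nonneg b
  generalize ‖g‖ = x at *
  generalize ‖b‖ = y at *
  have m1 : |2 * (g.re * b.re + g.im * b.im)| ≤ 1 - x ^ 2 - y ^ 2 :=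
    abs_le.2 ⟨by nlinarith, by nlinarith⟩
  have m2 : |2 * (g.im * b.re - g.re * b.im)| ≤ 1 - x ^ 2 - y ^ 2 :=
    abs_le.2 ⟨by nlinarith, by nlinarith⟩
  have m0 := (abs_nonneg _).trans m1
  have n1 := sq_le_sq' (abs_le.1 m1).1 (abs_le.1 m1).2
  have n2 := sq_le_sq' (abs_le.1 m2).1 (abs_le.1 m2).2
  have e : (√2 * x * y) ^ 2 ≤ (1 - x ^ 2 - y ^ 2) ^ 2 := by
    have : (√2 * x * y) ^ 2 = 2 * ((g.re * b.re + g.im * b.im) ^ 2 +
        (g.im * b.re - g.re * b.im) ^ 2) := by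
      rw [mul_pow, mul_pow, s, G, B]; ring
    nlinarith
  have e' := (sq_le_sq₀ (by positivity) m0).1 e
  refine (sq_le_sq₀ (by positivity) s0.le).1 ?_
  have : (√2 * x + y) ^ 2 = 2 * x ^ 2 + 2 * (√2 * x * y) + y ^ 2 := by
    linear_combination x ^ 2 * s
  nlinarith

theorem core (a c b w : ℂ) (hw : ‖w‖ = 1) (h0 : √2 * ‖a + c‖ + ‖b‖ ≤ √2)
    (h1 : √2 * ‖a - c‖ + ‖b * w‖ ≤ √2) : ‖a‖ + (‖b‖ + ‖c‖) ≤ √2 := by
  have s := Real.sq_sqrt (show (0 : ℝ) ≤ 2 by norm_num)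
  have s0 : 0 < √2 := by positivity
  rw [norm_mul, hw, mul_one] at h1
  have p := parallelogram_law_with_norm ℝ a c
  have q : ∀ x : ℝ, 0 ≤ x → √2 * x + ‖b‖ ≤ √2 → 2 * x ^ 2 ≤ (√2 - ‖b‖) ^ 2 := fun x hx h => by
    have := pow_le_pow_left₀ (by positivity) (show √2 * x ≤ √2 - ‖b‖ by linarith) 2
    rwa [mul_pow, s] at this
  have q0 := q _ (norm_nonneg _) h0
  have q1 := q _ (norm_nonneg _) h1
  have : 0 ≤ √2 * ‖a + c‖ := by positivity
  have : ‖a‖ + ‖c‖ ≤ √2 - ‖b‖ := (sq_le_sq₀ (by positivity) (by linarith)).1 (by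
    nlinarith [sq_nonneg (‖a‖ - ‖c‖)])
  linarith

noncomputable def z : ℂ := exp (2 * Real.pi * I / 16)

theorem chi_eq (x t : ZMod 16) : chi x t = z ^ (x.val * t.val) := by
  rw [chi, z, ← exp_nat_mul]; congr 1; push_cast; ring

theorem z4 : z ^ 4 = I := by
  rw [z, ← exp_nat_mul]; convert exp_pi_div_two_mul_I using 2; push_cast; ring

theorem zn : ‖z‖ = 1 := by
  rw [z, show 2 * Real.pi * I / 16 = ((Real.pi / 8 : ℝ) : ℂ) * I by push_cast; ring,
    norm_exp_ofReal_mul_I]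

theorem zp (m r : ℕ) : z ^ (4 * m + r) = z ^ r * I ^ m := by rw [pow_add, pow_mul, z4, mul_comm]

theorem z8 (t : ℕ) : z ^ (8 * t) = (-1) ^ t := by
  rw [show 8 * t = 4 * (2 * t) + 0 by ring, zp, pow_mul, I_sq, pow_zero, one_mul]

theorem sid (y : ZMod 16) (hy : y = 1 ∨ y = 2) : sidon ({0, y, 8} : Finset (ZMod 16)) = √2 := by
  have n1 : (0 : ZMod 16) ∉ ({y, 8} : Finset (ZMod 16)) := by rcases hy with rfl | rfl <;> decide
  have n2 : y ≠ 8 := by rcases hy with rfl | rfl <;> decide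
  have n3 : y ≠ 0 := by rcases hy with rfl | rfl <;> decide
  have v8 : (8 : ZMod 16).val = 8 := rfl
  have ev : ∀ (a : ZMod 16 → ℂ) t, ∑ x ∈ ({0, y, 8} : Finset (ZMod 16)), a x * chi x t =
      a 0 + a 8 * (-1) ^ t.val + a y * z ^ (y.val * t.val) := fun a t => by
    rw [Finset.sum_insert n1, Finset.sum_pair n2, chi_eq, chi_eq, chi_eq, v8, z8]
    simp; ring
  have s0 : 0 < √2 := by positivity
  refine IsGreatest.csSup_eq ⟨⟨fun x => if x = 0 then 1 / √2 else if x = 8 then I / √2 else 0,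
    fun t => ?_, ?_⟩, ?_⟩
  · rw [ev]
    simp only [if_true, n2, n3, if_false, show (8 : ZMod 16) ≠ 0 by decide, zero_mul, add_zero]
    have : ∀ e : ℝ, e ^ 2 = 1 → ‖(1 / √2 + I / √2 * e : ℂ)‖ ≤ 1 := fun e he => by
      rw [show (1 / √2 + I / √2 * e : ℂ) = ((1 : ℝ) + e * I) / √2 by push_cast; ring, norm_div,
        norm_add_mul_I, he]
      norm_num [abs_of_pos s0]
    exact_mod_cast this ((-1) ^ t.val) (by rw [← pow_mul, mul_comm, pow_mul]; simp)
  · rw [Finset.sum_insert n1, Finset.sum_pair n2]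
    simp only [if_true, n2, n3, if_false, show (8 : ZMod 16) ≠ 0 by decide]
    simp [abs_of_pos s0]
    field_simp
    norm_num
  · rintro s ⟨a, ha, rfl⟩
    rw [Finset.sum_insert n1, Finset.sum_pair n2]
    simp only [ev] at ha
    have H : ∀ t : ℕ, t < 16 → ‖a 0 + a 8 * (-1) ^ t + a y * z ^ (y.val * t)‖ ≤ 1 := fun t ht => by
      simpa only [ZMod.val_cast_of_lt ht] using ha t
    have I3 : I ^ 3 = -I := I_pow_three
    rcases hy with rfl | rfl
    · have v : (1 : ZMod 16).val = 1 := rfl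
      simp only [v, one_mul] at H
      refine core _ _ _ z zn (rot _ _ ?_ ?_ ?_ ?_) (rot _ _ ?_ ?_ ?_ ?_)
      · simpa using H 0 (by norm_num)
      · convert H (4 * 1 + 0) (by norm_num) using 2; rw [zp]; ring
      · convert H (4 * 2 + 0) (by norm_num) using 2; rw [zp, I_sq]; ring
      · convert H (4 * 3 + 0) (by norm_num) using 2; rw [zp, I3]; ring
      · convert H 1 (by norm_num) using 2; ring
      · convert H (4 * 1 + 1) (by norm_num) using 2; rw [zp]; ring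
      · convert H (4 * 2 + 1) (by norm_num) using 2; rw [zp, I_sq]; ring
      · convert H (4 * 3 + 1) (by norm_num) using 2; rw [zp, I3]; ring
    · have v : (2 : ZMod 16).val = 2 := rfl
      simp only [v] at H
      refine core _ _ _ (z ^ 2) (by rw [norm_pow, zn, one_pow]) (rot _ _ ?_ ?_ ?_ ?_)
        (rot _ _ ?_ ?_ ?_ ?_)
      · simpa using H 0 (by norm_num)
      · convert H 2 (by norm_num) using 2; rw [show 2 * 2 = 4 * 1 + 0 from rfl, zp]; ring
      · convert H 4 (by norm_num) using 2; rw [show 2 * 4 = 4 * 2 + 0 from rfl, zp, I_sq]; ring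
      · convert H 6 (by norm_num) using 2; rw [show 2 * 6 = 4 * 3 + 0 from rfl, zp, I3]; ring
      · convert H 1 (by norm_num) using 2; ring
      · convert H 3 (by norm_num) using 2; rw [show 2 * 3 = 4 * 1 + 2 from rfl, zp]; ring
      · convert H 5 (by norm_num) using 2; rw [show 2 * 5 = 4 * 2 + 2 from rfl, zp, I_sq]; ring
      · convert H 7 (by norm_num) using 2; rw [show 2 * 7 = 4 * 3 + 2 from rfl, zp, I3]; ring

theorem result : ∃ (k : ℕ) (E F : Finset (ZMod k)), 1 ≤ k ∧ E.Nonempty ∧ F.Nonempty ∧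
    E.card = F.card ∧ sidon E = sidon F ∧ ¬ Equivalent E F ∧ ¬ Extreme E ∧ ¬ Extreme F := by
  have h : √2 ≠ √((3 : ℕ) : ℝ) := fun h => by
    rw [Real.sqrt_inj (by norm_num) (by norm_num)] at h
    norm_num at h
  refine ⟨16, {0, 2, 8}, {0, 1, 8}, by norm_num, by decide, by decide, by decide,
    by rw [sid 1 (.inl rfl), sid 2 (.inr rfl)], ?_, ?_, ?_⟩
  · rintro ⟨u, c, h⟩
    generalize (u : ZMod 16) = v at h
    revert v c
    decide
  · rw [Extreme, sid 2 (.inr rfl)]; exact h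
  · rw [Extreme, sid 1 (.inl rfl)]; exact h

end Pool.Agent.Results.MP_e96fbd_an.No
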